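import Pool.Agent.R441.Num

/-!
The conjectured value of `S_1(p) = ∑_{k<p} binom(-1/3,k) binom(-1/6,k) (27/16)^k` modulo `p²`
is wrong for `p = 31`.
-/

set_option autoImplicit false

namespace Pool.Agent.Results.MP_34a732_nt.ThirtyOneFails

open Pool.Agent.R441 (CongMod not_congMod)

/-- `binom(a,k) = a (a-1) ⋯ (a-k+1) / k!` -/
def bc (a : ℚ) (k : ℕ) : ℚ := (∏ j ∈ Finset.range k, (a - j)) / k.factorial

/-- `S_1(p) = ∑_{k<p} binom(-1/3,k) binom(-1/6,k) (27/16)^k` -/
def S1 (p : ℕ) : ℚ := ∑ k ∈ Finset.range p, bc (-1 / 3) k * bc (-1 / 6) k * (27 / 16) ^ k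

/-- `S_2(p) = ∑_{k<p} binom(-2/3,k) binom(-5/6,k) (27/16)^k` -/
def S2 (p : ℕ) : ℚ := ∑ k ∈ Finset.range p, bc (-2 / 3) k * bc (-5 / 6) k * (27 / 16) ^ k

/-- The Legendre symbol of a residue class modulo the prime `p` -/
def leg (p : ℕ) [NeZero p] (r : ZMod p) : ℤ := if r = 0 then 0 else if IsSquare r then 1 else -1

/-- The main congruences of the conjecture for the prime `p` and the integers `x`, `y` with
`4 p = x² + 11 y²` -/
def Main (p : ℕ) [NeZero p] (x y : ℤ) : Prop :=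
  (p % 3 = 1 → CongMod p 2 (S1 p) (S2 p) ∧
    CongMod p 2 (S1 p) (-(leg p (-11 + (x : ZMod p) * (y : ZMod p)⁻¹) * jacobiSym x 11 *
      (x - p / x)))) ∧
  (p % 3 = 2 → CongMod p 2 (S1 p) (-11 / 16 * S2 p) ∧
    CongMod p 2 (S1 p) (-(1 / 4 * leg p (-11 + (jacobiSym x 11 : ZMod p) * x * (y : ZMod p)⁻¹) *
      (11 * y - p / y))))

/-- There are a prime `p > 11` with `(p/11) = 1` (namely `p = 31`) and integers with
`4 p = x² + 11 y²` for which the main congruences of the conjecture fail; in fact for `p = 31` the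
stated value of `S_1(p)` modulo `p²` is wrong for all representations `4 p = x² + 11 y²`. -/
theorem result : ∃ p : ℕ, ∃ _ : NeZero p, p = 31 ∧ p.Prime ∧ 11 < p ∧ jacobiSym p 11 = 1 ∧
    (∃ x y : ℤ, 4 * (p : ℤ) = x ^ 2 + 11 * y ^ 2) ∧
    ∀ x y : ℤ, 4 * (p : ℤ) = x ^ 2 + 11 * y ^ 2 → ¬ Main p x y := by
  refine ⟨31, ⟨by norm_num⟩, rfl, by norm_num, by norm_num, by norm_num,
    ⟨5, 3, by norm_num⟩, ?_⟩
  intro x y h
  have hx : x ^ 2 ≤ 124 := by push_cast at h; nlinarith [sq_nonneg y]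
  have hy : y ^ 2 ≤ 11 := by push_cast at h; nlinarith [sq_nonneg x]
  have hx1 : x ≤ 11 := by nlinarith
  have hx2 : -11 ≤ x := by nlinarith
  have hy1 : y ≤ 3 := by nlinarith
  have hy2 : -3 ≤ y := by nlinarith
  have j1 : jacobiSym 5 11 = 1 := by norm_num
  have j2 : jacobiSym (-5) 11 = -1 := by norm_num
  have : (x = 5 ∨ x = -5) ∧ (y = 3 ∨ y = -3) := by
    push_cast at h
    interval_cases y <;> interval_cases x <;> simp_all
  rintro ⟨h1, -⟩
  have h2 := (h1 (by norm_num)).2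
  rcases this with ⟨rfl | rfl, rfl | rfl⟩
  · rw [j1] at h2
    exact not_congMod (by norm_num) (by decide +kernel) h2
  · rw [j1] at h2
    exact not_congMod (by norm_num) (by decide +kernel) h2
  · rw [j2] at h2
    exact not_congMod (by norm_num) (by decide +kernel) h2
  · rw [j2] at h2
    exact not_congMod (by norm_num) (by decide +kernel) h2

end Pool.Agent.Results.MP_34a732_nt.ThirtyOneFails
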